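import Mathlib

namespace Pool.Agent.Results.MP_df70bc_co.Counter

open Finset MvPolynomial

/-- `t(y) = y + ∑_{k=0}^{q-2} y^k`, applied in any commutative ring. -/
def tt {R : Type} [CommRing R] (q : ℕ) (y : R) : R := y + ∑ k ∈ range (q - 1), y ^ k

/-- The (unreduced) polynomials `f_{n+1}` in the `n+1` variables `x_0, …, x_n` over a finite field
with `q` elements: `f_1 = x_0`, `f_{n+2} = t(f_{n+1}^{q-2} + x_{n+1}^{q-2})`. -/
noncomputable def fp (K : Type) [Field K] [Fintype K] : (n : ℕ) → MvPolynomial (Fin (n + 1)) K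
  | 0 => X 0
  | n + 1 => tt (Fintype.card K) (rename Fin.castSucc (fp K n) ^ (Fintype.card K - 2) +
      X (Fin.last (n + 1)) ^ (Fintype.card K - 2))

/-- `P` is the reduced form of `G`: degree `< q` in each variable, same function on `K^σ`. -/
def IsReducedForm {K σ : Type} [Field K] [Fintype K] (P G : MvPolynomial σ K) : Prop :=
  (∀ i, P.degreeOf i < Fintype.card K) ∧ ∀ x : σ → K, eval x P = eval x G

instance fact7 : Fact (Nat.Prime 7) := ⟨by norm_num⟩

abbrev F := ZMod 7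

def st (y a : F) : F := tt 7 (y ^ 5 + a ^ 5)

lemma eval_succ (n : ℕ) (x : Fin (n + 2) → F) :
    eval x (fp F (n + 1)) = st (eval (Fin.init x) (fp F n)) (x (Fin.last _)) := by
  rw [fp, ZMod.card]
  simp only [tt, st, map_add, map_sum, map_pow, eval_X, eval_rename]
  rfl

def T (w φ : F → F) : F → F := fun y => ∑ a, φ (st y a) * w a

noncomputable def Φ (n : ℕ) (φ : F → F) (w : Fin (n + 1) → F → F) : F :=
  ∑ x : Fin (n + 1) → F, φ (eval x (fp F n)) * ∏ i, w i (x i)

lemma Φ_zero (φ : F → F) (w : Fin 1 → F → F) : Φ 0 φ w = ∑ a, φ a * w 0 a := by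
  unfold Φ
  rw [← (Equiv.funUnique (Fin 1) F).symm.sum_comp]
  simp [fp]

lemma Φ_succ (n : ℕ) (φ : F → F) (w : Fin (n + 2) → F → F) :
    Φ (n + 1) φ w = Φ n (T (w (Fin.last _)) φ) (Fin.init w) := by
  unfold Φ
  rw [← (Fin.snocEquiv (fun _ : Fin (n + 2) => F)).sum_comp, Fintype.sum_prod_type, sum_comm]
  apply sum_congr rfl
  intro x _
  rw [T, sum_mul]
  apply sum_congr rfl
  intro a _
  have e : Fin.init ((Fin.snocEquiv fun _ : Fin (n + 2) => F) (a, x)) = x :=
    Fin.init_snoc (α := fun _ : Fin (n + 2) => F) a x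
  rw [eval_succ, Fin.prod_univ_castSucc, e]
  simp only [Fin.snocEquiv_apply, Fin.init_snoc, Fin.snoc_last, Fin.snoc_castSucc, Fin.init]
  ring

lemma bij1 : ∀ y : F, Function.Bijective (fun a => st y a) := by decide +kernel

lemma bij2 : ∀ a : F, Function.Bijective (fun y => st y a) := by decide +kernel

lemma Φ_const (n : ℕ) (φ : F → F) (w : Fin (n + 1) → F → F) (hφ : ∑ z, φ z = 0)
    (i : Fin (n + 1)) (c : F) (hw : w i = fun _ => c) : Φ n φ w = 0 := by
  induction n generalizing φ with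
  | zero =>
    rw [Φ_zero, show (0 : Fin 1) = i from Subsingleton.elim _ _, hw, ← sum_mul, hφ, zero_mul]
  | succ n ih =>
    rw [Φ_succ]
    rcases Fin.eq_castSucc_or_eq_last i with ⟨j, rfl⟩ | rfl
    · refine ih _ _ ?_ j hw
      unfold T
      rw [sum_comm]
      apply sum_eq_zero
      intro a _
      rw [← sum_mul, (bij2 a).sum_comp φ, hφ, zero_mul]
    · have : T (w (Fin.last _)) φ = fun _ => 0 := by
        funext y
        rw [T, hw, ← sum_mul, (bij1 y).sum_comp φ, hφ, zero_mul]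
      rw [this]
      simp [Φ]

lemma Φ_top : Φ 9 id (fun _ x => -x) = 0 := by
  have s : ∀ n φ, Φ (n + 1) φ (fun _ x => -x) = Φ n (T (fun x => -x) φ) (fun _ x => -x) :=
    fun n φ => Φ_succ n φ _
  have h : (id : F → F) = ![0, 1, 2, 3, 4, 5, 6] := by decide +kernel
  have h0 : T (fun x => -x) ![0, 1, 2, 3, 4, 5, 6] = ![2, 2, 5, 2, 4, 2, 4] := by decide +kernel
  have h1 : T (fun x => -x) ![2, 2, 5, 2, 4, 2, 4] = ![0, 2, 4, 1, 2, 5, 0] := by decide +kernel
  have h2 : T (fun x => -x) ![0, 2, 4, 1, 2, 5, 0] = ![2, 2, 2, 4, 2, 6, 3] := by decide +kernel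
  have h3 : T (fun x => -x) ![2, 2, 2, 4, 2, 6, 3] = ![0, 2, 1, 0, 4, 0, 0] := by decide +kernel
  have h4 : T (fun x => -x) ![0, 2, 1, 0, 4, 0, 0] = ![2, 2, 1, 1, 6, 0, 2] := by decide +kernel
  have h5 : T (fun x => -x) ![2, 2, 1, 1, 6, 0, 2] = ![0, 3, 4, 2, 2, 3, 0] := by decide +kernel
  have h6 : T (fun x => -x) ![0, 3, 4, 2, 2, 3, 0] = ![3, 3, 0, 4, 1, 5, 5] := by decide +kernel
  have h7 : T (fun x => -x) ![3, 3, 0, 4, 1, 5, 5] = ![0, 6, 0, 6, 0, 2, 0] := by decide +kernel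
  have h8 : T (fun x => -x) ![0, 6, 0, 6, 0, 2, 0] = ![6, 6, 2, 0, 1, 1, 5] := by decide +kernel
  rw [h, s, h0, s, h1, s, h2, s, h3, s, h4, s, h5, s, h6, s, h7, s, h8, Φ_zero]
  decide +kernel

def κ (a : ℕ) (x : F) : F := if a = 0 then (if x = 0 then 1 else 0) else -x ^ (6 - a)

lemma orth : ∀ a < 7, ∀ b < 7, ∑ x : F, x ^ b * κ a x = if b = a then 1 else 0 := by
  decide +kernel

lemma coeff_eq {n : ℕ} (P : MvPolynomial (Fin n) F) (hP : ∀ i, P.degreeOf i < 7)
    (m : Fin n →₀ ℕ) (hm : m ∈ P.support) :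
    coeff m P = ∑ x : Fin n → F, eval x P * ∏ i, κ (m i) (x i) := by
  have hl : ∀ d ∈ P.support, ∀ i, d i < 7 :=
    fun d hd i => lt_of_le_of_lt (monomial_le_degreeOf i hd) (hP i)
  simp only [eval_eq', sum_mul]
  rw [sum_comm]
  have : ∀ d ∈ P.support, ∑ x : Fin n → F, coeff d P * (∏ i, x i ^ d i) * ∏ i, κ (m i) (x i) =
      if d = m then coeff d P else 0 := by
    intro d hd
    simp only [mul_assoc, ← mul_sum, ← prod_mul_distrib]
    rw [← Fintype.piFinset_univ, ← prod_univ_sum (fun _ => univ) (fun i x => x ^ d i * κ (m i) x),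
      prod_congr rfl (fun i _ => orth _ (hl m hm i) _ (hl d hd i))]
    split_ifs with h
    · simp [h]
    · obtain ⟨i, hi⟩ := DFunLike.ne_iff.1 h
      rw [prod_eq_zero (mem_univ i) (if_neg hi), mul_zero]
  rw [sum_congr rfl this, sum_ite_eq', if_pos hm]

theorem result :
    (∃ P, IsReducedForm P (fp (ZMod 7) 9)) ∧
      ∀ P, IsReducedForm P (fp (ZMod 7) 9) → P.totalDegree < 10 * (7 - 2) := by
  constructor
  · have h := map_restrict_dom_evalₗ F (Fin 10)
    have h2 : (fun x => eval x (fp F 9)) ∈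
        (restrictDegree (Fin 10) F (Fintype.card F - 1)).map (evalₗ F (Fin 10)) := by
      rw [h]; trivial
    obtain ⟨P, hP, e⟩ := Submodule.mem_map.1 h2
    refine ⟨P, fun i => ?_, fun x => congrFun e x⟩
    rw [mem_restrictDegree, ZMod.card] at hP
    rw [ZMod.card, degreeOf_lt_iff (by norm_num)]
    intro m hm
    have := hP m hm i
    omega
  · rintro P ⟨h1, h2⟩
    rw [ZMod.card] at h1
    rw [totalDegree, Finset.sup_lt_iff (by norm_num)]
    intro m hm
    by_contra hlt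
    apply mem_support_iff.1 hm
    rw [coeff_eq P h1 m hm]
    simp only [h2]
    change Φ 9 id (fun i => κ (m i)) = 0
    by_cases h6 : ∃ i, m i = 6
    · obtain ⟨i, hi⟩ := h6
      refine Φ_const 9 id _ (by decide +kernel) i (-1) ?_
      funext x
      simp [κ, hi]
    · have hl : ∀ i, m i ≤ 5 := fun i => by
        have a := lt_of_le_of_lt (monomial_le_degreeOf i hm) (h1 i)
        have b : m i ≠ 6 := fun e => h6 ⟨i, e⟩
        omega
      have h5 : ∀ i, m i = 5 := by
        rw [Finsupp.sum_fintype _ _ (fun _ => rfl)] at hlt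
        by_contra hc
        push Not at hc
        obtain ⟨i, hi⟩ := hc
        apply hlt
        calc ∑ j, m j < ∑ _j : Fin 10, 5 :=
              sum_lt_sum (fun j _ => hl j) ⟨i, mem_univ i, lt_of_le_of_ne (hl i) hi⟩
          _ = 10 * (7 - 2) := by simp
      have : (fun i => κ (m i)) = fun (_ : Fin 10) x => -x := by
        funext i x
        simp [κ, h5 i]
      rw [this, Φ_top]

end Pool.Agent.Results.MP_df70bc_co.Counter
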